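import Pool.Agent.Helper87.IA.Asm

/-!
# MP_88803c_co, Q2: the bound `(μ ^ μ)⁺` consistently fails at `μ = ℵ₁`

A partially ordered set `Q` belongs to `D(κ)` (`InD κ Q`) if it has no antichain of cardinality `κ`;
`I(Q)` is the set of the ideals of `Q` (`Order.Ideal Q`). Q2 asks whether `Q ∈ D(μ)` implies
`I(Q) ∈ D((μ ^ μ)⁺)`. The sentence `Model` of the forcing language says that there are a partially
ordered set all of whose antichains are countable, a family of pairwise incomparable ideals of it indexed
by a set `X`, and an uncountable set `Y` such that `|X| > 2 ^ |Y|`.

The forcing notion: the conditions are the finite partial orders on nodes of the binary tree of height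
`lam` (`lam` is the least cardinal with `2 ^ ℵ₁ < 2 ^ lam`) such that no node is below a proper initial
segment of itself, no node above `x` parts from `x` at the last place of `x`, and no node below `w` parts
from `w` at the same place as a node above `w`; the ideals are given by the branches of the tree.
-/

set_option autoImplicit false

namespace Pool.Agent.Results.MP_88803c_co.ConsistentFailure

open Cardinal Set Pool.Agent.Helper87.IA

/-- (1) There is a forcing notion with the countable chain condition all conditions of which force
the sentence `Model`. (2) Over the trivial forcing, the sentence `Model` says that the answer to Q2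
is negative for `μ = ℵ₁`: some partially ordered set without antichains of cardinality `ℵ₁` has an
antichain of `(ℵ₁ ^ ℵ₁)⁺` ideals. -/
theorem result :
    (∃ (P : Type) (_ : Preorder P), Nonempty P ∧ CCC P ∧ ∀ p : P, p ∈ Model P) ∧
    (∀ p : Unit, p ∈ Model Unit ↔ ∃ (Q : Type) (_ : PartialOrder Q), InD ℵ₁ Q ∧
      ¬ InD (Order.succ ((ℵ₁ : Cardinal.{0}) ^ (ℵ₁ : Cardinal.{0}))) (Order.Ideal Q)) :=
  main

end Pool.Agent.Results.MP_88803c_co.ConsistentFailure
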